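import Pool.Agent.W519.One
import Pool.Agent.W519.Fac

/-!
# The pole of the L-function of a diagonal hypersurface: at most two odd prime factors

Let `m` be a positive integer which is not divisible by `4` and has at most two different odd prime
factors. Every eigenline of the cohomology of a diagonal hypersurface of degree `m` over the
rational numbers on which the Galois group of the field of `m`-th roots of unity acts trivially
belongs to the family generated by the standard characters.
-/

namespace Pool.Agent.Results.MP_058a58_ag.DiagonalTwoPrimes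

open Pool.Agent.H916R2 Pool.Agent.H916K Pool.Agent.W519

theorem result {m : ℕ} (h4 : ¬ 4 ∣ m) (hm : (m.primeFactors.erase 2).card ≤ 2)
    {s : Multiset (ZMod m × ℤ)} (hs : s ≠ 0) (heven : Even (Multiset.card s))
    (h0 : ∀ z ∈ s, z.1 ≠ 0 ∧ z.2 ≠ 0) (hsum : (s.map Prod.fst).sum = 0)
    (hR : RationalClass m s) : Generated m (fun _ => False) (s.map Prod.fst) := by
  have hm0 : m ≠ 0 := by rintro rfl; exact h4 (dvd_zero 4)
  have hne : s.map Prod.fst ≠ 0 := fun h => hs (Multiset.map_eq_zero.mp h)
  have hm2 : 2 ≤ m := by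
    by_contra h
    have h1 : m = 1 := by omega
    subst h1
    obtain ⟨z, hz⟩ := Multiset.exists_mem_of_ne_zero hs
    exact (h0 z hz).1 (Subsingleton.elim _ _)
  have hH := hodge_of_rational hm2 (fun z hz => (h0 z hz).1) heven hsum (fun z hz => (h0 z hz).2) hR
  obtain ⟨c, n, hc, hcn, hodd, hpf⟩ := split_two h4
  have hn0 : n ≠ 0 := hodd.pos.ne'
  rw [← hpf] at hm
  have hodd' : ∀ p ∈ n.primeFactors, p ≠ 2 := by
    intro p hp
    rw [hpf] at hp
    exact Finset.ne_of_mem_erase hp
  rcases Nat.lt_or_ge n.primeFactors.card 1 with h | h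
  · have h1 := eq_one_of_empty hn0 (Finset.card_eq_zero.mp (by omega))
    rw [h1, mul_one] at hcn
    exact main_zero (by rcases hc with h | h <;> omega) hH hne
  rcases Nat.lt_or_ge n.primeFactors.card 2 with h | h'
  · obtain ⟨p, hp⟩ := Finset.card_eq_one.mp (by omega : n.primeFactors.card = 1)
    obtain ⟨hpp, a, ha, hna⟩ := eq_pow_of_one hn0 hp
    have hp2 : p ≠ 2 := hodd' p (by rw [hp]; exact Finset.mem_singleton_self p)
    exact main_one hpp hp2 ha hc (by rw [← hna]; exact hcn) hH hne
  · obtain ⟨p, q, hpq, hpqn⟩ := Finset.card_eq_two.mp (by omega : n.primeFactors.card = 2)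
    obtain ⟨hp, hq, a, b, ha, hb, hn⟩ := eq_pow_of_two hpq hn0 hpqn
    have hp2 : p ≠ 2 := hodd' p (by rw [hpqn]; simp)
    have hq2 : q ≠ 2 := hodd' q (by rw [hpqn]; simp)
    exact main_le_two hp hq hp2 hq2 hpq ha hb hc (by rw [← hn]; exact hcn) hH hs
      (fun z hz => (h0 z hz).2) hR

end Pool.Agent.Results.MP_058a58_ag.DiagonalTwoPrimes
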