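import Pool.Agent.W353.TD.Main

/-!
# Tate's conjecture on the pole over all number fields of bounded degree: one governing field

`X` is a smooth projective variety over a number field `K`, for example over `K = ℚ`, and `V = A^m(X) ⊗ ℚ`
the space of the classes of the algebraic cycles of codimension `m` defined over the algebraic closure.
For every number field `F ⊇ K` the variety `X_F`, seen as a variety over `ℚ`, is smooth and projective,
with the `L`-function `L(H^{2m}(X_F), s)`, an Euler product over the primes of `F`, and
`rank B^m(X_F) = dim V^{Gal(K̄/F)}`.  The defect over `F` is `ord_{s=m+1} L(H^{2m}(X_F), s) + rank B^m(X_F)`;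
Tate's conjecture for `X_F` says that it is `0`.
The definitions are in `Pool.Agent.W353.TD.Defs` and `Pool.Agent.W353.EF.Defs`.
-/

set_option autoImplicit false

namespace Pool.Agent.Results.MP_058a58_ag.TateGoverningField

open NumberField Pool.Agent.W353.TD

/-- **One extension governs Tate's conjecture over all number fields of bounded degree.**  Let `X` be a
projective variety of dimension `d` over a number field `K`, `0 ≤ m ≤ d`, `N` the `2m`-th Betti number,
`V` a part of `H^{2m}(X)(m)`, for instance `V = A^m(X) ⊗ ℚ`, and `s = N - dim V`.  For all `c` and
`k ≥ 1` there is a finite Galois extension `M/K` such that, for all number fields `F ⊇ K` such that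
`F ⊗_K F` is a product of at most `c` fields,
* (no continuation is assumed here) for arbitrarily small `ε > 0` the values of
`log |L(m + 1 + ε)| / log(1/ε) - rank` over `F` and over `F ∩ M` differ by less than `1/k`;
* the defects over `F` and over `F ∩ M`, if both exist, are equal.

There is such an extension `M/K` of degree at most `(c!)^(2 c (ks)²)` for all number fields `F ⊇ K` of
degree at most `c`. -/
theorem result (K : Type) [Field K] [NumberField K] (n d m N : ℕ)
    (X : Set (MvPolynomial (Fin n) (𝓞 K))) (V : Type) [AddCommGroup V] [Module ℚ V]
    [FiniteDimensional ℚ V] (ρ : Representation ℚ Gal(AlgebraicClosure K/K) V) (hm : m ≤ d)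
    (hV : IsPart X d m N ρ) (c k : ℕ) (hk : 1 ≤ k) : OneFieldGovernsDefects X d m N ρ c k := by
  obtain ⟨n₀, h⟩ := all (N - Module.finrank ℚ V)
  exact (h K n d m N X V ρ hm rfl hV).1 c k hk

end Pool.Agent.Results.MP_058a58_ag.TateGoverningField
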