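import Pool.Agent.W353.TD.Main

/-!
# Tate's conjecture on the pole over extension fields: relations between the defects

`X` is a smooth projective variety over a number field `K`, for example over `K = ℚ`, and `V = A^m(X) ⊗ ℚ`
the space of the classes of the algebraic cycles of codimension `m` defined over the algebraic closure.
For every number field `F ⊇ K` the variety `X_F`, seen as a variety over `ℚ`, is smooth and projective,
with the `L`-function `L(H^{2m}(X_F), s)`, an Euler product over the primes of `F`, and
`rank B^m(X_F) = dim V^{Gal(K̄/F)}`.  The defect over `F` is `ord_{s=m+1} L(H^{2m}(X_F), s) + rank B^m(X_F)`;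
Tate's conjecture for `X_F` says that it is `0`.
The definitions are in `Pool.Agent.W353.TD.Defs` and `Pool.Agent.W353.EF.Defs`.
-/

set_option autoImplicit false

namespace Pool.Agent.Results.MP_058a58_ag.TateRelations

open NumberField Pool.Agent.W353.TD

/-- **Linear relations between the defects of Tate's conjecture over extension fields.**  Let `X` be a
projective variety of dimension `d` over a number field `K`, `0 ≤ m ≤ d`, `N` the `2m`-th Betti number,
`V` a part of `H^{2m}(X)(m)`, for instance `V = A^m(X) ⊗ ℚ`, and `s = N - dim V`.  Let `F_k ⊇ K` be number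
fields, `c_k` real, `A` the mean value of `|∑ c_k fix_k|`, where `fix_k(σ)` is the number of the
embeddings of `F_k` fixed by `σ`, and `x_k(ε) = log |L(m + 1 + ε)| / log(1/ε)` over `F_k`.
* (No continuation is assumed here.)  For all `η > 0` and all small `ε > 0`,
`|∑ c_k (x_k(ε) - rank_k)| ≤ s A + η`.
* If there are defects `δ_k` over the fields `F_k`, then `|∑ c_k δ_k| ≤ s A`.

In particular, for `F` and `K`, with the proportion `p` of the derangements in the Galois group of the
closure of `F/K`: `|(x_F(ε) - rank_F) - (x_K(ε) - rank_K)| ≤ 2 s p + η` and `|δ_F - δ_K| ≤ 2 s p`. -/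
theorem result (K : Type) [Field K] [NumberField K] (n d m N : ℕ)
    (X : Set (MvPolynomial (Fin n) (𝓞 K))) (V : Type) [AddCommGroup V] [Module ℚ V]
    [FiniteDimensional ℚ V] (ρ : Representation ℚ Gal(AlgebraicClosure K/K) V) (hm : m ≤ d)
    (hV : IsPart X d m N ρ) : DefectRelations X d m N ρ := by
  obtain ⟨n₀, h⟩ := all (N - Module.finrank ℚ V)
  exact (h K n d m N X V ρ hm rfl hV).2.1

end Pool.Agent.Results.MP_058a58_ag.TateRelations
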